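import Pool.Agent.V5helper33.EHS.Stm

set_option autoImplicit false

/-!
# Project EHS, job BC: Borel-Cantelli
-/

namespace Pool.Agent.V5helper32.EHS

open Finset MeasureTheory ProbabilityTheory Filter
open scoped ENNReal Topology
open Pool.Agent.W41 (V V_pos V_le_one)
open Pool.Agent.V5helper42.RS (TT TT_prime V_TT_ge)
open Pool.Agent.V5helper33.EHS

lemma ev_log1 : ∀ᶠ m : ℕ in atTop, (1 : ℝ) ≤ Real.log m :=
  (Real.tendsto_log_atTop.comp tendsto_natCast_atTop_atTop).eventually_ge_atTop 1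

lemma TQ_prime (t q : ℕ) : ∀ p ∈ TQ t q, p.Prime := fun p hp => TT_prime _ p (mem_filter.1 hp).1

lemma TQ_ndvd (t q : ℕ) : ∀ p ∈ TQ t q, ¬ p ∣ q := fun p hp => (mem_filter.1 hp).2

lemma V_TQ_ge (t q : ℕ) : V (TT (Real.log t)) ≤ V (TQ t q) := by
  have hsub : TQ t q ⊆ TT (Real.log t) := filter_subset _ _
  have h1 : V (TT (Real.log t)) = V (TT (Real.log t) \ TQ t q) * V (TQ t q) := by
    unfold V
    exact (prod_sdiff hsub).symm
  have h2 := V_le_one (P := TT (Real.log t) \ TQ t q) (fun p hp => TT_prime _ p (mem_sdiff.1 hp).1)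
  have h3 := V_pos (TQ_prime t q)
  rw [h1]
  nlinarith

lemma ev_hh (K j : ℕ) (hj : 1 ≤ j) : ∀ᶠ x : ℕ in atTop, ∀ q : ℕ,
    (q : ℝ) ≤ (x : ℝ) ^ (1 - 1 / (j : ℝ)) →
    (x : ℝ) ^ (1 / ((2 * j : ℕ) : ℝ)) * q ≤ (hh K x : ℝ) := by
  have hj0 : (0 : ℝ) < ((2 * j : ℕ) : ℝ) := by exact_mod_cast (by omega : 0 < 2 * j)
  have hj2 : (1 : ℝ) ≤ ((2 * j : ℕ) : ℝ) := by exact_mod_cast (by omega : 1 ≤ 2 * j)
  have hj1 : (0 : ℝ) < (j : ℝ) := by exact_mod_cast (by omega : 0 < j)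
  have hlo : (fun x : ℝ => Real.log x ^ (K : ℝ)) =o[atTop] fun x : ℝ => x ^ (1 / ((2 * j : ℕ) : ℝ)) :=
    isLittleO_log_rpow_rpow_atTop _ (by positivity)
  have h1 := (hlo.comp_tendsto (tendsto_natCast_atTop_atTop (R := ℝ))).bound (show (0 : ℝ) < 1 / 2 by norm_num)
  filter_upwards [h1, ev_log1, eventually_ge_atTop 1] with x hx hL1 hx1
  intro q hq
  have hx0 : (0 : ℝ) < x := by exact_mod_cast hx1
  have hx1' : (1 : ℝ) ≤ x := by exact_mod_cast hx1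
  have hLK : 0 < Real.log x ^ K := pow_pos (by linarith) K
  simp only [Function.comp] at hx
  rw [Real.norm_eq_abs, Real.norm_eq_abs, Real.rpow_natCast, abs_of_pos hLK,
    abs_of_pos (Real.rpow_pos_of_pos hx0 _)] at hx
  have e1 : (x : ℝ) ^ (1 / ((2 * j : ℕ) : ℝ)) * (x : ℝ) ^ (1 - 1 / (j : ℝ)) =
      (x : ℝ) ^ (1 - 1 / ((2 * j : ℕ) : ℝ)) := by
    rw [← Real.rpow_add hx0]
    congr 1
    push_cast
    field_simp
    ring
  have e2 : (x : ℝ) ^ (1 / ((2 * j : ℕ) : ℝ)) * (x : ℝ) ^ (1 - 1 / ((2 * j : ℕ) : ℝ)) = x := by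
    rw [← Real.rpow_add hx0]
    have e3 : 1 / ((2 * j : ℕ) : ℝ) + (1 - 1 / ((2 * j : ℕ) : ℝ)) = 1 := by ring
    rw [e3, Real.rpow_one]
  have h1j : 1 / ((2 * j : ℕ) : ℝ) ≤ 1 := by
    rw [div_le_one hj0]
    exact hj2
  have hy1 : 1 ≤ (x : ℝ) ^ (1 - 1 / ((2 * j : ℕ) : ℝ)) := Real.one_le_rpow hx1' (by linarith)
  obtain ⟨y, hy⟩ : ∃ y : ℝ, y = (x : ℝ) ^ (1 - 1 / ((2 * j : ℕ) : ℝ)) := ⟨_, rfl⟩
  rw [← hy] at e1 e2 hy1
  have h2 : 2 * y ≤ x / Real.log x ^ K := by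
    rw [le_div_iff₀ hLK]
    have h5 := mul_le_mul_of_nonneg_right hx (show 0 ≤ y by linarith)
    nlinarith
  have h3 : (x : ℝ) / Real.log x ^ K - 1 < hh K x := Nat.sub_one_lt_floor _
  have h4 := mul_le_mul_of_nonneg_left hq (Real.rpow_pos_of_pos hx0 (1 / ((2 * j : ℕ) : ℝ))).le
  rw [e1] at h4
  linarith

open Classical in
/-- the bad event at `x` -/
noncomputable def Bad {Ω : Type} (a : ℕ → Ω → ℕ) (A j K x : ℕ) : Set Ω :=
  ⋃ m ∈ (range (x + 1)).filter (fun m => hh K x ≤ m),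
  ⋃ q ∈ (range (x + 1)).filter (fun q : ℕ => 1 ≤ q ∧ (q : ℝ) ≤ (x : ℝ) ^ (1 - 1 / (j : ℝ))),
  ⋃ c ∈ range q, ⋃ t ∈ ({m, m + hh K x} : Finset ℕ),
    {ω | ¬ Close (fun p => a p ω) m (hh K x) q c (TQ t q) ((Real.log x) ^ A)⁻¹}

lemma union_le {Ω ι : Type} [MeasurableSpace Ω] (μ : Measure Ω) (s : Finset ι) (f : ι → Set Ω)
    (b : ℝ≥0∞) (N : ℕ) (hN : s.card ≤ N) (h : ∀ i ∈ s, μ (f i) ≤ b) :
    μ (⋃ i ∈ s, f i) ≤ N * b := by
  refine (measure_biUnion_finset_le s f).trans ((sum_le_sum h).trans ?_)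
  rw [sum_const, nsmul_eq_mul]
  gcongr

theorem prob_Bad (hE : S_EVT) (A j K : ℕ) (hj : 1 ≤ j) : ∀ᶠ x : ℕ in atTop,
    ∀ (Ω : Type) [MeasurableSpace Ω] (μ : Measure Ω) [IsProbabilityMeasure μ] (a : ℕ → Ω → ℕ),
    Setup μ a → μ (Bad a A j K x) ≤ ENNReal.ofReal (16 / (x : ℝ) ^ 2) := by
  have hj0 : (0 : ℝ) < ((2 * j : ℕ) : ℝ) := by exact_mod_cast (by omega : 0 < 2 * j)
  have h3' : ∀ᶠ x : ℕ in atTop, (3 : ℝ) ≤ (x : ℝ) ^ (1 / ((2 * j : ℕ) : ℝ)) :=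
    ((tendsto_rpow_atTop (show 0 < 1 / ((2 * j : ℕ) : ℝ) by positivity)).comp
      (tendsto_natCast_atTop_atTop (R := ℝ))).eventually_ge_atTop 3
  filter_upwards [hE A (2 * j) (by omega), ev_hh K j hj, ev_log1, eventually_ge_atTop 2, h3']
    with x h1 h2 h3 h4 h5
  intro Ω _ μ _ a hS
  have hx2 : (2 : ℝ) ≤ x := by exact_mod_cast h4
  have hx0 : (0 : ℝ) < x := by linarith
  have one : ∀ m ∈ (range (x + 1)).filter (fun m => hh K x ≤ m),
      ∀ q : ℕ, 1 ≤ q → (q : ℝ) ≤ (x : ℝ) ^ (1 - 1 / (j : ℝ)) →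
      ∀ c ∈ range q, ∀ t ∈ ({m, m + hh K x} : Finset ℕ),
      μ {ω | ¬ Close (fun p => a p ω) m (hh K x) q c (TQ t q) ((Real.log x) ^ A)⁻¹} ≤
        ENNReal.ofReal (1 / (x : ℝ) ^ 5) := by
    intro m hm q hq hqx c hc t ht
    rw [mem_filter, mem_range] at hm
    rw [mem_range] at hc
    have hq1 : (1 : ℝ) ≤ q := by exact_mod_cast hq
    have h6 := h2 q hqx
    have h7 : 3 * (q : ℝ) ≤ (hh K x : ℝ) := by
      have := mul_le_mul_of_nonneg_right h5 (show (0 : ℝ) ≤ q by linarith)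
      linarith
    have h8 : 3 * q ≤ hh K x := by exact_mod_cast h7
    refine h1 Ω μ a hS m (hh K x) q c hq hc (by omega) ?_ (TQ t q) (TQ_prime t q) (TQ_ndvd t q) ?_
    · rw [le_div_iff₀ (by linarith)]
      exact h6
    · have ht1 : 3 ≤ t ∧ t ≤ 2 * x := by
        rw [mem_insert, mem_singleton] at ht
        omega
      have ht3 : (3 : ℝ) ≤ t := by exact_mod_cast ht1.1
      have ht2 : (t : ℝ) ≤ 2 * x := by exact_mod_cast ht1.2
      have hl3 : (1 : ℝ) ≤ Real.log 3 :=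
        (Real.le_log_iff_exp_le (by norm_num)).2 (by linarith [Real.exp_one_lt_d9])
      have hlt : (1 : ℝ) ≤ Real.log t := hl3.trans (Real.log_le_log (by norm_num) ht3)
      have hlt2 : Real.log t ≤ 2 * Real.log x := by
        have h9 : Real.log t ≤ Real.log (2 * x) := Real.log_le_log (by linarith) ht2
        rw [Real.log_mul (by norm_num) hx0.ne'] at h9
        have h10 : Real.log 2 ≤ Real.log x := Real.log_le_log (by norm_num) hx2
        linarith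
      calc 1 / (2 * Real.log x) ≤ 1 / Real.log t := one_div_le_one_div_of_le (by linarith) hlt2
        _ ≤ V (TT (Real.log t)) := V_TT_ge _ hlt
        _ ≤ V (TQ t q) := V_TQ_ge t q
  have hB : μ (Bad a A j K x) ≤ ((x + 1 : ℕ) : ℝ≥0∞) * (((x + 1 : ℕ) : ℝ≥0∞) *
      (((x + 1 : ℕ) : ℝ≥0∞) * (((2 : ℕ) : ℝ≥0∞) * ENNReal.ofReal (1 / (x : ℝ) ^ 5)))) := by
    unfold Bad
    refine union_le μ _ _ _ _ ((card_filter_le _ _).trans (by rw [card_range])) fun m hm => ?_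
    refine union_le μ _ _ _ _ ((card_filter_le _ _).trans (by rw [card_range])) fun q hq => ?_
    rw [mem_filter, mem_range] at hq
    refine union_le μ _ _ _ _ (by rw [card_range]; omega) fun c hc => ?_
    exact union_le μ _ _ _ _ card_le_two fun t ht => one m hm q hq.2.1 hq.2.2 c hc t ht
  refine hB.trans ?_
  rw [← ENNReal.ofReal_natCast (x + 1), ← ENNReal.ofReal_natCast 2,
    ← ENNReal.ofReal_mul (by positivity), ← ENNReal.ofReal_mul (by positivity),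
    ← ENNReal.ofReal_mul (by positivity), ← ENNReal.ofReal_mul (by positivity)]
  apply ENNReal.ofReal_le_ofReal
  have h6 : ((x + 1 : ℕ) : ℝ) ≤ 2 * x := by push_cast; linarith
  have h7 : (0 : ℝ) ≤ ((x + 1 : ℕ) : ℝ) := by positivity
  have h8 : ((x + 1 : ℕ) : ℝ) ^ 3 ≤ (2 * x) ^ 3 := pow_le_pow_left₀ h7 h6 3
  have h9 : (0 : ℝ) ≤ 1 / (x : ℝ) ^ 5 := by positivity
  calc ((x + 1 : ℕ) : ℝ) * (((x + 1 : ℕ) : ℝ) * (((x + 1 : ℕ) : ℝ) * (((2 : ℕ) : ℝ) * (1 / (x : ℝ) ^ 5))))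
      = ((x + 1 : ℕ) : ℝ) ^ 3 * (2 * (1 / (x : ℝ) ^ 5)) := by push_cast; ring
    _ ≤ (2 * x) ^ 3 * (2 * (1 / (x : ℝ) ^ 5)) := mul_le_mul_of_nonneg_right h8 (by positivity)
    _ = 16 / (x : ℝ) ^ 2 := by field_simp; norm_num

theorem t_BC (hE : S_EVT) : S_BC := by
  intro Ω _ μ _ a hS A j K hj
  obtain ⟨x0, hx0⟩ := eventually_atTop.1 (prob_Bad hE A j K (by omega))
  have hBC : ∀ᵐ ω ∂μ, ∀ᶠ x : ℕ in atTop, ω ∉ (if x0 ≤ x then Bad a A j K x else ∅) := by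
    apply ae_eventually_notMem
    have hs : Summable (fun m : ℕ => 16 / (m : ℝ) ^ 2) := by
      have h := (Real.summable_one_div_nat_pow.2 (by norm_num : 1 < 2)).mul_left 16
      simpa only [mul_one_div] using h
    refine ne_top_of_le_ne_top hs.tsum_ofReal_ne_top ?_
    apply ENNReal.tsum_le_tsum
    intro m
    split_ifs with h
    · exact hx0 m h Ω μ a hS
    · simp
  filter_upwards [hBC] with ω h1
  filter_upwards [h1, eventually_ge_atTop x0, eventually_ge_atTop 1] with x g1 g2 g3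
  intro m q c t hq hqx hc hm hmx ht
  rw [if_pos g2] at g1
  by_contra hcon
  apply g1
  unfold Bad
  simp only [Set.mem_iUnion]
  have hx1 : (1 : ℝ) ≤ x := by exact_mod_cast g3
  have hqx2 : q ≤ x := by
    have h2 : (x : ℝ) ^ (1 - 1 / (j : ℝ)) ≤ (x : ℝ) ^ (1 : ℝ) := by
      apply Real.rpow_le_rpow_of_exponent_le hx1
      have : (0 : ℝ) ≤ 1 / (j : ℝ) := by positivity
      linarith
    rw [Real.rpow_one] at h2
    exact_mod_cast hqx.trans h2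
  refine ⟨m, ?_, q, ?_, c, ?_, t, ?_, hcon⟩
  · rw [mem_filter, mem_range]
    exact ⟨by omega, hm⟩
  · rw [mem_filter, mem_range]
    exact ⟨by omega, hq, hqx⟩
  · rw [mem_range]
    exact hc
  · rw [mem_insert, mem_singleton]
    exact ht

end Pool.Agent.V5helper32.EHS
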